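import Pool.Agent.Lib_helper25.PV.Defs

/-! Project HE (MP_b08f5f_an, high and low energy): definitions. -/

set_option autoImplicit false

namespace Pool.Agent.Lib_helper12.HE

open MeasureTheory Filter Topology Set
open scoped ComplexConjugate ENNReal
open Pool.Agent.Lib_helper25.PV (Conf vel Motion centre inertia NC VFlow)

noncomputable section

/-- the energy `H = -(1/4π) ∑_{i ≠ j} log |z_i - z_j|` -/
def ham {N : ℕ} (z : Conf N) : ℝ :=
  -(1 / (4 * Real.pi)) * ∑ i, ∑ j ∈ Finset.univ.erase i, Real.log ‖z i - z j‖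

/-- the radius of a configuration about its centre -/
def rad {N : ℕ} (z : Conf N) : ℝ := Real.sqrt ((∑ i, ‖z i - centre z‖ ^ 2) / N)

/-- the normalised configuration: centre `0`, radius `1` -/
def nrm {N : ℕ} (z : Conf N) : Conf N := fun i => ((rad z : ℝ) : ℂ)⁻¹ * (z i - centre z)

/-- the sphere `Γ_N` without the collisions -/
def Gam (N : ℕ) : Set (Conf N) :=
  {y | Function.Injective y ∧ ∑ i, y i = 0 ∧ (∑ i, ‖y i‖ ^ 2) / (N : ℝ) = 1}

/-- the shell `|Z| ≤ 1`, `1 ≤ r < 1 + ε` -/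
def shell (N : ℕ) (ε : ℝ) : Set (Conf N) :=
  {z | ‖centre z‖ ≤ 1 ∧ 1 ≤ rad z ∧ rad z < 1 + ε}

/-- the (cone) measure of a subset of `Γ_N` -/
def sig (N : ℕ) (B : Set (Conf N)) : ℝ≥0∞ := volume {z | z ∈ shell N 1 ∧ nrm z ∈ B}

/-- high energy -/
def Hi (N : ℕ) (E : ℝ) : Set (Conf N) := {y | y ∈ Gam N ∧ E ≤ ham y}

/-- on `Γ_N` this is `∑_{j ≠ o} |y_j - ζ|²`, `ζ` the centre of the vortices other than `o` -/
def spread {N : ℕ} (o : Fin N) (y : Conf N) : ℝ := N - N / (N - 1) * ‖y o‖ ^ 2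

/-- all vortices but one are close together -/
def Clus (N : ℕ) (ρ : ℝ) : Set (Conf N) := {y | y ∈ Gam N ∧ ∃ o, spread o y ≤ ρ ^ 2}

/-- rotation by `θ` -/
def turn {N : ℕ} (θ : ℝ) (z : Conf N) : Conf N := fun i => Complex.exp (θ * Complex.I) * z i

/-- `N - 1` vortices at `-b / √(N-1)`, the vortex `o` at `√(N-1) b` -/
def ideal (N : ℕ) (o : Fin N) (b : ℂ) : Conf N := fun i =>
  if i = o then (Real.sqrt (N - 1) : ℂ) * b else -((Real.sqrt (N - 1) : ℂ)⁻¹ * b)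

/-- the angular velocity of the ideal motion -/
def Om (N : ℕ) : ℝ := (N - 1) / (2 * Real.pi * N)

/-- the period of the ideal motion -/
def per (N : ℕ) : ℝ := 2 * Real.pi / Om N

/-- the average of `Ψ` over the circle of ideal configurations -/
def circ (N : ℕ) (Ψ : Conf N → ℝ) (o : Fin N) : ℝ :=
  (2 * Real.pi)⁻¹ * ∫ s in (0 : ℝ)..2 * Real.pi, Ψ (ideal N o (Complex.exp (s * Complex.I)))

/-- the one-particle function of `Φ` -/
def one (N : ℕ) (Φ : ℂ → ℝ) (z : Conf N) : ℝ := (∑ k, Φ (z k)) / N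

/-- the integral of `Φ` against `μ_* = ((N-1)/N) unif(|x| = (N-1)^(-1/2)) + (1/N) unif(|x| = (N-1)^(1/2))` -/
def mstar (N : ℕ) (Φ : ℂ → ℝ) : ℝ :=
  ((N - 1) / N) * ((2 * Real.pi)⁻¹ * ∫ s in (0 : ℝ)..2 * Real.pi,
      Φ ((Real.sqrt (N - 1) : ℂ)⁻¹ * Complex.exp (s * Complex.I))) +
    (1 / N) * ((2 * Real.pi)⁻¹ * ∫ s in (0 : ℝ)..2 * Real.pi,
      Φ ((Real.sqrt (N - 1) : ℂ) * Complex.exp (s * Complex.I)))

/-- `l` is the time average of `Ψ` along `w` -/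
def LimAvg {N : ℕ} (w : ℝ → Conf N) (Ψ : Conf N → ℝ) (l : ℝ) : Prop :=
  Tendsto (fun T : ℝ => T⁻¹ * ∫ t in (0 : ℝ)..T, Ψ (w t)) atTop (𝓝 l)

/-- the linear map `z ↦ (z_j - z_{π j})`, roots (`π j = j`) fixed -/
def starMap {N : ℕ} (π : Fin N → Fin N) : Conf N →ₗ[ℝ] Conf N where
  toFun z := fun j => if π j = j then z j else z j - z (π j)
  map_add' x y := by
    funext j
    by_cases h : π j = j <;> simp [h]
    ring
  map_smul' r x := by
    funext j
    by_cases h : π j = j <;> simp [h, mul_sub]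

end

end Pool.Agent.Lib_helper12.HE
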