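import Pool.Agent.Lib_helper12.HE.FI3

/-! Project HE (MP_b08f5f_an): choice of the parameters. -/

set_option autoImplicit false

namespace Pool.Agent.Lib_helper12.HE

open MeasureTheory Filter Topology Set
open scoped ComplexConjugate ENNReal
open Pool.Agent.Lib_helper25.PV (Conf vel Motion centre inertia NC VFlow)

noncomputable section

theorem FI_small {k A a : ℝ} (hk : 0 < k) (ha : 0 < a) :
    ∀ᶠ E : ℝ in atTop, A * Real.exp (-(k * E)) ≤ a := by
  have h1 : Tendsto (fun E : ℝ => A * Real.exp (-(k * E))) atTop (𝓝 (A * 0)) := by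
    refine Tendsto.const_mul A ?_
    have h2 : Tendsto (fun E : ℝ => -(k * E)) atTop atBot :=
      tendsto_neg_atTop_atBot.comp (tendsto_id.const_mul_atTop hk)
    exact Real.tendsto_exp_atBot.comp h2
  rw [mul_zero] at h1
  exact (h1.eventually (Iio_mem_nhds ha)).mono fun E hE => le_of_lt hE

theorem FI_main' (N : ℕ) (hN : 3 ≤ N) : ∃ c > 0, ∃ E₀ : ℝ, ∀ E ≥ E₀, ∃ Bad ⊆ Hi N E,
    sig N Bad ≤ ENNReal.ofReal (Real.exp (-(c * E))) * sig N (Hi N E) ∧
    ∀ y ∈ Hi N E, y ∉ Bad → Fine N (Real.exp (-(c * E))) y := by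
  have h3 : (3 : ℝ) ≤ N := by exact_mod_cast hN
  have hpi := Real.pi_pos
  obtain ⟨C, hC, ρ₀, hρ₀, hbad⟩ := FI_bad hN
  obtain ⟨cL, hcL, hL⟩ := VL_lower N hN
  set s0 : ℝ := 8 * Real.pi / (N - 1) with hs0
  set s1 : ℝ := 8 * Real.pi / (N - 2) with hs1
  have h01 : s0 < s1 := by
    rw [hs0, hs1]
    apply div_lt_div_of_pos_left (by positivity) (by linarith) (by linarith)
  have hs0pos : 0 < s0 := by
    rw [hs0]
    apply div_pos (by positivity) (by linarith)
  set s : ℝ := (s0 + s1) / 2 with hs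
  set g : ℝ := s - s0 with hg
  have hg0 : 0 < g := by rw [hg, hs]; linarith
  obtain ⟨CU, hCU, b, hU⟩ := VU_upper N hN s (by rw [hs]; linarith) (by rw [hs, ← hs1]; linarith)
  have hb0 : (0 : ℝ) ≤ b := Nat.cast_nonneg b
  set c : ℝ := g / (4 * (b + 2)) with hc
  have hc0 : 0 < c := by rw [hc]; positivity
  have hcg : c * (4 * (b + 2)) = g := by
    rw [hc]
    field_simp
  have hcb : 2 * c * (b + 1) + c ≤ g / 2 := by nlinarith
  have hev : ∀ᶠ E : ℝ in atTop, 0 ≤ E ∧ 1 * Real.exp (-(2 * c * E)) ≤ ρ₀ ∧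
      (3 * C) * Real.exp (-(c * E)) ≤ 1 ∧ CU * Real.exp (-(g / 2 * E)) ≤ cL := by
    filter_upwards [eventually_ge_atTop (0 : ℝ), FI_small (A := 1) (by positivity : 0 < 2 * c) hρ₀,
      FI_small (A := 3 * C) hc0 one_pos, FI_small (A := CU) (by positivity : 0 < g / 2) hcL]
      with E h1 h2 h3 h4
    exact ⟨h1, h2, h3, h4⟩
  obtain ⟨E₀, hE₀⟩ := eventually_atTop.1 hev
  refine ⟨c, hc0, E₀, fun E hE => ?_⟩
  obtain ⟨e0, e1, e2, e3⟩ := hE₀ E hE
  rw [one_mul] at e1
  set q : ℝ := Real.exp (-(2 * c * E)) with hq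
  have hq0 : 0 < q := Real.exp_pos _
  have hq1 : q ≤ 1 := by
    rw [hq, Real.exp_le_one_iff]
    have : 0 ≤ 2 * c * E := by positivity
    linarith
  have hdef : C * (q + q + q) ≤ Real.exp (-(c * E)) := by
    have e4 : q = Real.exp (-(c * E)) * Real.exp (-(c * E)) := by
      rw [hq, ← Real.exp_add]
      congr 1
      ring
    have e5 := Real.exp_pos (-(c * E))
    calc C * (q + q + q) = (3 * C * Real.exp (-(c * E))) * Real.exp (-(c * E)) := by
          rw [e4]; ring
      _ ≤ 1 * Real.exp (-(c * E)) := by gcongr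
      _ = _ := one_mul _
  refine ⟨{y | y ∈ Hi N E ∧ ¬ Fine N (C * (q + q + q)) y}, fun y hy => hy.1, ?_, ?_⟩
  · have k1 := hbad q q q E hq0 e1 hq0 hq0 hq1
    have k2 := hU q hq0 hq1 E
    have k3 := hL E e0
    refine k1.trans ?_
    calc ENNReal.ofReal (1 / q) * sig N (Hi N E \ Clus N q)
        ≤ ENNReal.ofReal (1 / q) * ENNReal.ofReal (CU * (1 / q) ^ b * Real.exp (-(s * E))) := by
          gcongr
      _ = ENNReal.ofReal (1 / q * (CU * (1 / q) ^ b * Real.exp (-(s * E)))) :=
          (ENNReal.ofReal_mul (by positivity)).symm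
      _ ≤ ENNReal.ofReal (Real.exp (-(c * E)) * (cL * Real.exp (-(s0 * E)))) := by
          apply ENNReal.ofReal_le_ofReal
          have e6 : 1 / q = Real.exp (2 * c * E) := by
            rw [hq, one_div, ← Real.exp_neg, neg_neg]
          have e7 : (1 / q) ^ (b + 1) = Real.exp (2 * c * (b + 1) * E) := by
            rw [e6, ← Real.exp_nat_mul]
            congr 1
            push_cast
            ring
          calc 1 / q * (CU * (1 / q) ^ b * Real.exp (-(s * E)))
              = CU * (1 / q) ^ (b + 1) * Real.exp (-(s * E)) := by ring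
            _ = CU * Real.exp (2 * c * (b + 1) * E - s * E) := by
                rw [e7, mul_assoc, ← Real.exp_add, ← sub_eq_add_neg]
            _ ≤ CU * Real.exp (-(g / 2 * E) + (-(c * E) + -(s0 * E))) := by
                gcongr
                have e8 : (2 * c * (b + 1) + c) * E ≤ g / 2 * E := by gcongr
                have e9 : s * E = g * E + s0 * E := by rw [hg]; ring
                linarith
            _ = (CU * Real.exp (-(g / 2 * E))) * (Real.exp (-(c * E)) * Real.exp (-(s0 * E))) := by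
                rw [Real.exp_add, Real.exp_add]; ring
            _ ≤ cL * (Real.exp (-(c * E)) * Real.exp (-(s0 * E))) := by gcongr
            _ = Real.exp (-(c * E)) * (cL * Real.exp (-(s0 * E))) := by ring
      _ = ENNReal.ofReal (Real.exp (-(c * E))) * ENNReal.ofReal (cL * Real.exp (-(s0 * E))) := by
          rw [ENNReal.ofReal_mul (Real.exp_pos _).le]
      _ ≤ ENNReal.ofReal (Real.exp (-(c * E))) * sig N (Hi N E) := by gcongr
  · intro y hy hyB w hw hw0
    have hF : Fine N (C * (q + q + q)) y := by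
      by_contra h
      exact hyB ⟨hy, h⟩
    obtain ⟨a1, a2, a3⟩ := hF w hw hw0
    exact ⟨a1, fun Ψ hΨ θ l l' hl hl' => (a2 Ψ hΨ θ l l' hl hl').trans hdef,
      fun Φ hΦ l hl => (a3 Φ hΦ l hl).trans hdef⟩

end

end Pool.Agent.Lib_helper12.HE
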