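import Pool.Agent.Lib_helper59.HE.D
import Pool.Agent.Lib_helper16.HE.A
import Pool.Agent.Lib_helper52.HE.VL
import Pool.Agent.Lib_helper41.HE.VUF
import Pool.Agent.Lib_helper57.HE.SH
import Pool.Agent.Lib_helper23.HE.EB
import Pool.Agent.Lib_helper35.HE.GLW
import Pool.Agent.Lib_helper89.HE.GL

/-! Project HE (MP_b08f5f_an): from the windows to the time averages of one orbit. -/

set_option autoImplicit false

namespace Pool.Agent.Lib_helper12.HE

open MeasureTheory Filter Topology Set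
open scoped ComplexConjugate ENNReal
open Pool.Agent.Lib_helper25.PV (Conf vel Motion centre inertia NC VFlow)

noncomputable section

theorem FI_Om_pos {N : ℕ} (hN : 3 ≤ N) : 0 < Om N := by
  have h : (3 : ℝ) ≤ N := by exact_mod_cast hN
  unfold Om
  have := Real.pi_pos
  apply div_pos (by linarith) (by positivity)

theorem FI_per_pos {N : ℕ} (hN : 3 ≤ N) : 0 < per N := by
  have := Real.pi_pos
  exact div_pos (by linarith) (FI_Om_pos hN)

theorem FI_norm_le {N : ℕ} (hN : 1 ≤ N) {y : Conf N} (hy : y ∈ Gam N) : ‖y‖ ≤ Real.sqrt N := by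
  have hN' : (0 : ℝ) < N := by exact_mod_cast hN
  rw [pi_norm_le_iff_of_nonneg (Real.sqrt_nonneg _)]
  intro i
  apply Real.le_sqrt_of_sq_le
  have h1 : ∑ i, ‖y i‖ ^ 2 = N := by
    have := hy.2.2
    field_simp at this
    linarith
  calc ‖y i‖ ^ 2 ≤ ∑ i, ‖y i‖ ^ 2 :=
        Finset.single_le_sum (f := fun i => ‖y i‖ ^ 2) (fun i _ => by positivity)
          (Finset.mem_univ i)
    _ = N := h1

theorem FI_turn_norm {N : ℕ} (θ : ℝ) (z : Conf N) : ‖turn θ z‖ ≤ ‖z‖ := by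
  rw [pi_norm_le_iff_of_nonneg (norm_nonneg _)]
  intro i
  simp only [turn, norm_mul, Complex.norm_exp_ofReal_mul_I, one_mul]
  exact norm_le_pi_norm z i

theorem FI_turn_sub {N : ℕ} (θ : ℝ) (y z : Conf N) : turn θ y - turn θ z = turn θ (y - z) := by
  funext i
  simp [turn, mul_sub]

theorem FI_turn_lip {N : ℕ} (θ : ℝ) {Ψ : Conf N → ℝ} (hΨ : LipschitzWith 1 Ψ) :
    LipschitzWith 1 (fun z => Ψ (turn θ z)) := by
  refine LipschitzWith.of_dist_le_mul fun y z => ?_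
  have h1 := hΨ.dist_le_mul (turn θ y) (turn θ z)
  refine h1.trans ?_
  gcongr
  rw [dist_eq_norm, dist_eq_norm, FI_turn_sub]
  exact FI_turn_norm θ _

theorem FI_one_lip {N : ℕ} (hN : 1 ≤ N) {Φ : ℂ → ℝ} (hΦ : LipschitzWith 1 Φ) :
    LipschitzWith 1 (one N Φ) := by
  have hN' : (0 : ℝ) < N := by exact_mod_cast hN
  refine LipschitzWith.of_dist_le_mul fun y z => ?_
  rw [Real.dist_eq, dist_eq_norm, NNReal.coe_one, one_mul]
  unfold one
  rw [← sub_div, ← Finset.sum_sub_distrib, abs_div, abs_of_pos hN', div_le_iff₀ hN']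
  calc |∑ k, (Φ (y k) - Φ (z k))| ≤ ∑ k, |Φ (y k) - Φ (z k)| := Finset.abs_sum_le_sum_abs _ _
    _ ≤ ∑ _k : Fin N, ‖y - z‖ := by
        refine Finset.sum_le_sum fun k _ => ?_
        have := hΦ.dist_le_mul (y k) (z k)
        rw [Real.dist_eq, dist_eq_norm, NNReal.coe_one, one_mul] at this
        exact this.trans (norm_le_pi_norm (y - z) k)
    _ = ‖y - z‖ * N := by simp [mul_comm]

/-- the core: windows of one orbit -/
theorem FI_core {N : ℕ} (hN : 3 ≤ N) (V : VFlow N) {CD ρD ρ ε δ : ℝ}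
    (hD : ∀ (w : ℝ → Conf N) (o : Fin N) (ρ : ℝ),
      Motion w → w 0 ∈ Gam N → 0 < ρ → ρ ≤ ρD → spread o (w 0) ≤ ρ ^ 2 →
      ∃ b : ℂ, ‖b‖ = 1 ∧ ∀ t ∈ Icc 0 (per N),
        ‖w t - ideal N o (Complex.exp (-(Om N * t * Complex.I)) * b)‖ ≤ CD * ρ)
    (hρ : 0 < ρ) (hρD : ρ ≤ ρD) {z : Conf N} (hz : Function.Injective z)
    (hr1 : 1 ≤ rad z) (hr2 : rad z < 1 + ε)
    (hbad : ∃ l ≤ δ, Tendsto (fun n : ℕ =>
      (∑ k ∈ Finset.range n, {x : Conf N | nrm x ∉ Clus N ρ}.indicator (fun _ => (1 : ℝ))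
        ((V.φ (per N))^[k] z)) / n) atTop (𝓝 l))
    {F : Conf N → ℝ} (hF : Continuous F) {K a : ℝ} (hK : ∀ y ∈ Gam N, |F y| ≤ K) (ha : 0 ≤ a)
    (hwin : ∀ (u : ℝ → Conf N) (o : Fin N) (b : ℂ), Continuous u → (∀ t, u t ∈ Gam N) →
      ‖b‖ = 1 → (∀ t ∈ Icc 0 (per N),
        ‖u t - ideal N o (Complex.exp (-(Om N * t * Complex.I)) * b)‖ ≤ CD * ρ) →
      |(per N / rad z ^ 2)⁻¹ * (∫ t in (0 : ℝ)..per N / rad z ^ 2, F (u t))| ≤ a)
    {L : ℝ} (hL : LimAvg (fun t => V.φ t (nrm z)) F L) : |L| ≤ a + K * δ := by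
  classical
  have hr0 : 0 < rad z := by linarith
  have hy : nrm z ∈ Gam N := (GL_gam (by omega) hz).2
  have hyt : ∀ t, V.φ t (nrm z) ∈ Gam N := fun t => GL_Gam_inv V hy t
  have hcont : Continuous fun t => V.φ t (nrm z) := V.cont _
  -- the iterates
  have hit : ∀ k : ℕ, (V.φ (per N))^[k] z = V.φ (k * per N) z := by
    intro k
    induction k with
    | zero => simp [V.zero]
    | succ k ih =>
      rw [Function.iterate_succ_apply', ih, ← V.add]
      congr 1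
      push_cast
      ring
  set p : ℝ := per N / rad z ^ 2 with hp
  have hp0 : 0 < p := div_pos (FI_per_pos hN) (by positivity)
  have hnk : ∀ k : ℕ, nrm ((V.φ (per N))^[k] z) = V.φ (k * p) (nrm z) := by
    intro k
    rw [hit, GL_nrm (by omega) V hz hr0]
    congr 1
    rw [hp]
    ring
  have h1 := GL_windows (h := fun t => F (V.φ t (nrm z))) (hF.comp hcont) (K := K) (p := p)
    (a := a) (δ := δ) (fun t => hK _ (hyt t)) hp0 ha
    (bad := fun k : ℕ => V.φ (k * p) (nrm z) ∉ Clus N ρ) ?_ ?_ hL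
  · exact h1
  · intro k hk
    have hk' : V.φ (k * p) (nrm z) ∈ Clus N ρ := by
      by_contra h
      exact hk h
    obtain ⟨hg, o, ho⟩ := hk'
    have hinj : Function.Injective (V.φ (k * p) (nrm z)) := hg.1
    have hm : Motion (fun t => V.φ t (V.φ (k * p) (nrm z))) := V.motion _ hinj
    have h0 : (fun t => V.φ t (V.φ (k * p) (nrm z))) 0 = V.φ (k * p) (nrm z) := V.zero _
    obtain ⟨b, hb, hbt⟩ := hD (fun t => V.φ t (V.φ (k * p) (nrm z))) o ρ hm (by simpa only [V.zero] using hg)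
      hρ hρD (by simpa only [V.zero] using ho)
    have h2 := hwin (fun t => V.φ t (V.φ (k * p) (nrm z))) o b (V.cont _)
      (fun t => GL_Gam_inv V hg t) hb hbt
    have h3 : ∀ t, V.φ t (V.φ (k * p) (nrm z)) = V.φ (k * p + t) (nrm z) := by
      intro t
      rw [← V.add, add_comm]
    simp only [h3] at h2
    exact h2
  · obtain ⟨l, hl, hl'⟩ := hbad
    refine ⟨l, hl, hl'.congr fun n => ?_⟩
    congr 1
    refine Finset.sum_congr rfl fun k _ => ?_
    have h4 : ((V.φ (per N))^[k] z ∈ {x : Conf N | nrm x ∉ Clus N ρ}) ↔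
        V.φ (k * p) (nrm z) ∉ Clus N ρ := by
      rw [mem_ofPred_eq, hnk]
    simp only [indicator_apply, h4]

end

end Pool.Agent.Lib_helper12.HE
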