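import Pool.Agent.Lib_helper12.HE.FI1

/-! Project HE (MP_b08f5f_an): the conclusions for one good datum. -/

set_option autoImplicit false

namespace Pool.Agent.Lib_helper12.HE

open MeasureTheory Filter Topology Set
open scoped ComplexConjugate ENNReal
open Pool.Agent.Lib_helper25.PV (Conf vel Motion centre inertia NC VFlow)

noncomputable section

/-- the time averages of the normalised datum exist when those of the datum exist -/
theorem FI_exists {N : ℕ} (hN : 3 ≤ N) (V : VFlow N) {z : Conf N} (hz : Function.Injective z)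
    (hr : 0 < rad z)
    (hP : ∀ Ψ : Conf N → ℝ, Continuous Ψ → ∃ l : ℝ,
      Tendsto (fun T : ℝ => T⁻¹ * ∫ t in (0 : ℝ)..T, Ψ (V.φ t z)) atTop (𝓝 l))
    {Ψ : Conf N → ℝ} (hΨ : Continuous Ψ) : ∃ l, LimAvg (fun t => V.φ t (nrm z)) Ψ l := by
  set r := rad z with hrdef
  obtain ⟨l, hl⟩ := hP (fun x => Ψ (fun i => ((r : ℝ) : ℂ)⁻¹ * (x i - centre z))) (by fun_prop)
  refine ⟨l, ?_⟩
  have hr2 : 0 < r ^ 2 := by positivity
  have key : ∀ t, V.φ t (nrm z) =
      fun i => ((r : ℝ) : ℂ)⁻¹ * (V.φ (r ^ 2 * t) z i - centre z) := by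
    intro t
    have h1 := GL_nrm (by omega) V hz hr (r ^ 2 * t)
    rw [mul_comm (r ^ 2) t, ← hrdef, mul_div_assoc, div_self hr2.ne', mul_one] at h1
    rw [← h1, mul_comm t]
    have hrad : rad (V.φ (r ^ 2 * t) z) = r := by
      have h2 : ∀ x : Conf N, (∑ i, ‖x i - centre x‖ ^ 2) = inertia x - N * ‖centre x‖ ^ 2 := by
        intro x
        have e1 : ∀ i, ‖x i - centre x‖ ^ 2 =
            ‖x i‖ ^ 2 - 2 * inner ℝ (x i) (centre x) + ‖centre x‖ ^ 2 := fun i =>
          norm_sub_sq_real _ _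
        have e2 : ∑ i, inner ℝ (x i) (centre x) = inner ℝ (∑ i, x i) (centre x) := by
          rw [sum_inner]
        have hN' : (N : ℂ) ≠ 0 := by
          have : N ≠ 0 := by omega
          exact_mod_cast this
        have e3 : (∑ i, x i) = (N : ℝ) • centre x := by
          unfold centre
          rw [Complex.real_smul]
          push_cast
          field_simp
        simp only [e1, Finset.sum_add_distrib, Finset.sum_sub_distrib, ← Finset.mul_sum, e2, e3,
          inner_smul_left, Finset.sum_const, Finset.card_univ, Fintype.card_fin, nsmul_eq_mul,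
          real_inner_self_eq_norm_sq, inertia]
        simp
        ring
      rw [hrdef]
      unfold rad
      rw [h2, h2, V.inert, V.cen]
    funext i
    simp only [nrm, hrad, V.cen]
  unfold LimAvg
  have h3 : (fun T : ℝ => T⁻¹ * ∫ t in (0 : ℝ)..T, Ψ (V.φ t (nrm z))) =
      (fun T : ℝ => T⁻¹ * ∫ t in (0 : ℝ)..T,
        Ψ (fun i => ((r : ℝ) : ℂ)⁻¹ * (V.φ t z i - centre z))) ∘ (fun T => r ^ 2 * T) := by
    funext T
    simp only [Function.comp, key]
    have h4 := intervalIntegral.integral_comp_mul_left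
      (f := fun s => Ψ (fun i => ((r : ℝ) : ℂ)⁻¹ * (V.φ s z i - centre z))) (a := 0) (b := T)
      hr2.ne'
    rw [h4, mul_zero, smul_eq_mul, mul_inv]
    ring
  rw [h3]
  exact hl.comp (tendsto_id.const_mul_atTop hr2)

/-- the two quantitative conclusions -/
theorem FI_quant {N : ℕ} (hN : 3 ≤ N) (V : VFlow N) {CD ρD CA ρ ε δ : ℝ} (hCA : 0 < CA)
    (hCD : 0 < CD)
    (hD : ∀ (w : ℝ → Conf N) (o : Fin N) (ρ : ℝ),
      Motion w → w 0 ∈ Gam N → 0 < ρ → ρ ≤ ρD → spread o (w 0) ≤ ρ ^ 2 →
      ∃ b : ℂ, ‖b‖ = 1 ∧ ∀ t ∈ Icc 0 (per N),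
        ‖w t - ideal N o (Complex.exp (-(Om N * t * Complex.I)) * b)‖ ≤ CD * ρ)
    (hA : ∀ (w : ℝ → Conf N) (o : Fin N) (b : ℂ)
      (δ ε r : ℝ) (Ψ : Conf N → ℝ), Continuous w → (∀ t, (∑ i, ‖w t i‖ ^ 2) / (N : ℝ) = 1) →
      ‖b‖ = 1 → 0 ≤ δ → 0 ≤ ε → ε ≤ 1 → 1 ≤ r → r ≤ 1 + ε → LipschitzWith 1 Ψ →
      (∀ t ∈ Icc 0 (per N),
        ‖w t - ideal N o (Complex.exp (-(Om N * t * Complex.I)) * b)‖ ≤ δ) →
      |(per N / r ^ 2)⁻¹ * (∫ t in (0 : ℝ)..per N / r ^ 2, Ψ (w t)) - circ N Ψ o| ≤
        CA * (δ + ε))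
    (hρ : 0 < ρ) (hρD : ρ ≤ ρD) (hε : 0 < ε) (hε1 : ε ≤ 1)
    {z : Conf N} (hz : Function.Injective z)
    (hr1 : 1 ≤ rad z) (hr2 : rad z < 1 + ε)
    (hbad : ∃ l ≤ δ, Tendsto (fun n : ℕ =>
      (∑ k ∈ Finset.range n, {x : Conf N | nrm x ∉ Clus N ρ}.indicator (fun _ => (1 : ℝ))
        ((V.φ (per N))^[k] z)) / n) atTop (𝓝 l)) :
    (∀ Ψ : Conf N → ℝ, LipschitzWith 1 Ψ → ∀ θ l l' : ℝ,
      LimAvg (fun t => V.φ t (nrm z)) Ψ l →
      LimAvg (fun t => V.φ t (nrm z)) (fun z => Ψ (turn θ z)) l' →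
      |l' - l| ≤ 2 * (CA * (CD * ρ + ε)) + 2 * Real.sqrt N * δ) ∧
    (∀ Φ : ℂ → ℝ, LipschitzWith 1 Φ → ∀ l : ℝ,
      LimAvg (fun t => V.φ t (nrm z)) (one N Φ) l →
      |l - mstar N Φ| ≤ 2 * (CA * (CD * ρ + ε)) + 2 * Real.sqrt N * δ) := by
  have hr0 : 0 < rad z := by linarith
  have hp0 : 0 < per N / rad z ^ 2 := div_pos (FI_per_pos hN) (by positivity)
  have hcont : Continuous fun t => V.φ t (nrm z) := V.cont _
  have hδ1 : 0 ≤ CD * ρ := by positivity
  have hN0 : (0 : ℝ) ≤ Real.sqrt N := Real.sqrt_nonneg _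
  constructor
  · intro Ψ hΨ θ l l' hl hl'
    refine FI_core (F := fun x => Ψ (turn θ x) - Ψ x) hN V hD hρ hρD hz hr1 hr2 hbad
      ?_ (K := 2 * Real.sqrt N) ?_ (by positivity) ?_ ?_
    · exact (FI_turn_lip θ hΨ).continuous.sub hΨ.continuous
    · intro y hy
      have h1 := hΨ.dist_le_mul (turn θ y) y
      rw [Real.dist_eq, dist_eq_norm, NNReal.coe_one, one_mul] at h1
      refine h1.trans ?_
      have h2 := FI_norm_le (by omega) hy
      calc ‖turn θ y - y‖ ≤ ‖turn θ y‖ + ‖y‖ := norm_sub_le _ _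
        _ ≤ ‖y‖ + ‖y‖ := by gcongr; exact FI_turn_norm θ y
        _ ≤ 2 * Real.sqrt N := by linarith
    · intro u o b hu huG hb hub
      have h1 := hA u o b (CD * ρ) ε (rad z) Ψ hu (fun t => (huG t).2.2) hb hδ1 hε.le hε1 hr1
        hr2.le hΨ hub
      have h2 := hA u o b (CD * ρ) ε (rad z) (fun x => Ψ (turn θ x)) hu (fun t => (huG t).2.2) hb
        hδ1 hε.le hε1 hr1 hr2.le (FI_turn_lip θ hΨ) hub
      rw [A_circ_turn] at h2
      have i1 : IntervalIntegrable (fun t => Ψ (turn θ (u t))) volume 0 (per N / rad z ^ 2) :=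
        ((FI_turn_lip θ hΨ).continuous.comp hu).intervalIntegrable _ _
      have i2 : IntervalIntegrable (fun t => Ψ (u t)) volume 0 (per N / rad z ^ 2) :=
        (hΨ.continuous.comp hu).intervalIntegrable _ _
      rw [intervalIntegral.integral_sub i1 i2, mul_sub]
      have h3 := abs_sub_le
        ((per N / rad z ^ 2)⁻¹ * ∫ t in (0 : ℝ)..per N / rad z ^ 2, Ψ (turn θ (u t)))
        (circ N Ψ o) ((per N / rad z ^ 2)⁻¹ * ∫ t in (0 : ℝ)..per N / rad z ^ 2, Ψ (u t))
      rw [abs_sub_comm (circ N Ψ o)] at h3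
      linarith
    · have h1 := hl'.sub hl
      refine h1.congr fun T => ?_
      have i1 : IntervalIntegrable (fun t => Ψ (turn θ (V.φ t (nrm z)))) volume 0 T :=
        ((FI_turn_lip θ hΨ).continuous.comp hcont).intervalIntegrable _ _
      have i2 : IntervalIntegrable (fun t => Ψ (V.φ t (nrm z))) volume 0 T :=
        (hΨ.continuous.comp hcont).intervalIntegrable _ _
      rw [intervalIntegral.integral_sub i1 i2, mul_sub]
  · intro Φ hΦ l hl
    have hone := FI_one_lip (N := N) (by omega) hΦ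
    have hideal : ∀ (o : Fin N) (s : ℝ), ‖ideal N o (Complex.exp (s * Complex.I))‖ ≤
        Real.sqrt N := by
      intro o s
      have h3 : (3 : ℝ) ≤ N := by exact_mod_cast hN
      rw [pi_norm_le_iff_of_nonneg hN0]
      intro i
      unfold ideal
      have hs : Real.sqrt (N - 1) ≤ Real.sqrt N := Real.sqrt_le_sqrt (by linarith)
      have hs1 : 1 ≤ Real.sqrt (N - 1) := by
        rw [Real.one_le_sqrt]
        linarith
      split_ifs
      · rw [norm_mul, Complex.norm_exp_ofReal_mul_I, mul_one, Complex.norm_real,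
          Real.norm_of_nonneg (Real.sqrt_nonneg _)]
        exact hs
      · rw [norm_neg, norm_mul, Complex.norm_exp_ofReal_mul_I, mul_one, norm_inv,
          Complex.norm_real, Real.norm_of_nonneg (Real.sqrt_nonneg _)]
        calc (Real.sqrt (N - 1))⁻¹ ≤ 1 := inv_le_one_of_one_le₀ hs1
          _ ≤ Real.sqrt (N - 1) := hs1
          _ ≤ Real.sqrt N := hs
    have hcirc : ∀ (o : Fin N) (y : Conf N), y ∈ Gam N →
        |one N Φ y - circ N (one N Φ) o| ≤ 2 * Real.sqrt N := by
      intro o y hy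
      have h2 := FI_norm_le (by omega) hy
      have hpi := Real.pi_pos
      have hc : Continuous fun s : ℝ => one N Φ (ideal N o (Complex.exp (s * Complex.I))) := by
        refine hone.continuous.comp ?_
        refine continuous_pi fun i => ?_
        unfold ideal
        split_ifs <;> fun_prop
      have h4 : one N Φ y - circ N (one N Φ) o = (2 * Real.pi)⁻¹ *
          ∫ s in (0 : ℝ)..2 * Real.pi, (one N Φ y -
            one N Φ (ideal N o (Complex.exp (s * Complex.I)))) := by
        unfold circ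
        rw [intervalIntegral.integral_sub (by simp) (hc.intervalIntegrable _ _),
          intervalIntegral.integral_const]
        simp only [sub_zero, smul_eq_mul]
        rw [mul_sub, ← mul_assoc, inv_mul_cancel₀ (by positivity), one_mul]
      have h5 : ‖∫ s in (0 : ℝ)..2 * Real.pi, (one N Φ y -
            one N Φ (ideal N o (Complex.exp (s * Complex.I))))‖ ≤
          2 * Real.sqrt N * |2 * Real.pi - 0| := by
        refine intervalIntegral.norm_integral_le_of_norm_le_const fun s _ => ?_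
        have h6 := hone.dist_le_mul y (ideal N o (Complex.exp (s * Complex.I)))
        rw [Real.dist_eq, dist_eq_norm, NNReal.coe_one, one_mul] at h6
        rw [Real.norm_eq_abs]
        refine h6.trans ((norm_sub_le _ _).trans ?_)
        linarith [hideal o s]
      rw [Real.norm_eq_abs, sub_zero, abs_of_pos (by linarith : (0 : ℝ) < 2 * Real.pi)] at h5
      rw [h4, abs_mul, abs_of_pos (by positivity)]
      calc (2 * Real.pi)⁻¹ * |∫ s in (0 : ℝ)..2 * Real.pi, (one N Φ y -
            one N Φ (ideal N o (Complex.exp (s * Complex.I))))|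
          ≤ (2 * Real.pi)⁻¹ * (2 * Real.sqrt N * (2 * Real.pi)) := by gcongr
        _ = 2 * Real.sqrt N := by field_simp
    have hstar : ∀ o : Fin N, circ N (one N Φ) o = mstar N Φ := fun o =>
      A_circ_one N hN Φ hΦ.continuous o
    refine FI_core (F := fun x => one N Φ x - mstar N Φ) hN V hD hρ hρD hz hr1 hr2 hbad
      ?_ (K := 2 * Real.sqrt N) ?_ (by positivity) ?_ ?_
    · exact hone.continuous.sub continuous_const
    · intro y hy
      have o : Fin N := ⟨0, by omega⟩
      have := hcirc o y hy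
      rwa [hstar] at this
    · intro u o b hu huG hb hub
      have h1 := hA u o b (CD * ρ) ε (rad z) (one N Φ) hu (fun t => (huG t).2.2) hb hδ1 hε.le hε1
        hr1 hr2.le hone hub
      rw [hstar] at h1
      have i2 : IntervalIntegrable (fun t => one N Φ (u t)) volume 0 (per N / rad z ^ 2) :=
        (hone.continuous.comp hu).intervalIntegrable _ _
      rw [intervalIntegral.integral_sub i2 (by simp), intervalIntegral.integral_const, mul_sub]
      simp only [sub_zero, smul_eq_mul]
      rw [← mul_assoc, inv_mul_cancel₀ hp0.ne', one_mul]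
      have : 0 ≤ CA * (CD * ρ + ε) := by positivity
      linarith
    · have h1 := hl.sub_const (mstar N Φ)
      refine h1.congr' ?_
      filter_upwards [eventually_gt_atTop (0 : ℝ)] with T hT
      have i2 : IntervalIntegrable (fun t => one N Φ (V.φ t (nrm z))) volume 0 T :=
        (hone.continuous.comp hcont).intervalIntegrable _ _
      rw [intervalIntegral.integral_sub i2 (by simp), intervalIntegral.integral_const, mul_sub]
      simp only [sub_zero, smul_eq_mul]
      rw [← mul_assoc, inv_mul_cancel₀ hT.ne', one_mul]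

end

end Pool.Agent.Lib_helper12.HE
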