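import Pool.Agent.Lib_helper12.HE.FI2
import Pool.Agent.Lib_helper25.PV.Flow
import Pool.Agent.Lib_helper25.PV.B5b

/-! Project HE (MP_b08f5f_an): the final assembly. -/

set_option autoImplicit false

namespace Pool.Agent.Lib_helper12.HE

open MeasureTheory Filter Topology Set
open scoped ComplexConjugate ENNReal
open Pool.Agent.Lib_helper25.PV (Conf vel Motion centre inertia NC VFlow)

noncomputable section

/-! ### measurability -/

theorem FI_meas_centre (N : ℕ) : Measurable (centre (N := N)) := by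
  unfold centre
  fun_prop

theorem FI_meas_rad (N : ℕ) : Measurable (rad (N := N)) := by
  unfold rad centre
  fun_prop

theorem FI_meas_nrm (N : ℕ) : Measurable (nrm (N := N)) := by
  refine measurable_pi_lambda _ fun i => ?_
  unfold nrm
  have h1 := FI_meas_rad N
  have h2 := FI_meas_centre N
  fun_prop

theorem FI_meas_Gam (N : ℕ) : MeasurableSet (Gam N) := by
  have h1 : MeasurableSet {y : Conf N | Function.Injective y} := by
    have h : {z : Conf N | Function.Injective z} =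
        ⋂ i, ⋂ j, ⋂ (_ : i ≠ j), {z : Conf N | z i ≠ z j} := by
      ext z
      simp only [mem_ofPred_eq, mem_iInter, Function.Injective]
      constructor
      · intro h i j hij h'
        exact hij (h h')
      · intro h i j h'
        by_contra hij
        exact h i j hij h'
    rw [h]
    refine MeasurableSet.iInter fun i => MeasurableSet.iInter fun j =>
      MeasurableSet.iInter fun _ => ?_
    exact (measurableSet_eq_fun (measurable_pi_apply i) (measurable_pi_apply j)).compl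
  have h2 : MeasurableSet {y : Conf N | ∑ i, y i = 0} :=
    measurableSet_eq_fun (by fun_prop) measurable_const
  have h3 : MeasurableSet {y : Conf N | (∑ i, ‖y i‖ ^ 2) / (N : ℝ) = 1} :=
    measurableSet_eq_fun (by fun_prop) measurable_const
  exact h1.inter (h2.inter h3)

theorem FI_meas_ham (N : ℕ) : Measurable (ham (N := N)) := by
  unfold ham
  refine Measurable.const_mul ?_ _
  refine Finset.measurable_fun_sum _ fun i _ => Finset.measurable_fun_sum _ fun j _ => ?_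
  fun_prop

theorem FI_meas_Hi (N : ℕ) (E : ℝ) : MeasurableSet (Hi N E) :=
  (FI_meas_Gam N).inter (measurableSet_le measurable_const (FI_meas_ham N))

theorem FI_meas_Clus (N : ℕ) (ρ : ℝ) : MeasurableSet (Clus N ρ) := by
  have h : Clus N ρ = Gam N ∩ ⋃ o, {y : Conf N | spread o y ≤ ρ ^ 2} := by
    ext y
    simp [Clus]
  rw [h]
  refine (FI_meas_Gam N).inter (MeasurableSet.iUnion fun o => ?_)
  refine measurableSet_le ?_ measurable_const
  unfold spread
  fun_prop

theorem FI_meas_shell (N : ℕ) (ε : ℝ) : MeasurableSet (shell N ε) := by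
  refine MeasurableSet.inter ?_ (MeasurableSet.inter ?_ ?_)
  · exact measurableSet_le (FI_meas_centre N).norm measurable_const
  · exact measurableSet_le measurable_const (FI_meas_rad N)
  · exact measurableSet_lt (FI_meas_rad N) measurable_const

/-! ### the invariant set -/

/-- the part of the shell over `Hi N E` -/
def XX (N : ℕ) (ε E : ℝ) : Set (Conf N) := {z | z ∈ shell N ε ∧ nrm z ∈ Hi N E}

theorem FI_inj_of_nrm {N : ℕ} {z : Conf N} (h : nrm z ∈ Gam N) : Function.Injective z := by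
  intro i j hij
  apply h.1
  simp only [nrm, hij]

theorem FI_meas_XX (N : ℕ) (ε E : ℝ) : MeasurableSet (XX N ε E) :=
  (FI_meas_shell N ε).inter (FI_meas_nrm N (FI_meas_Hi N E))

theorem FI_rad_inv {N : ℕ} (hN : 1 ≤ N) (V : VFlow N) (z : Conf N) (t : ℝ) :
    rad (V.φ t z) = rad z := by
  have h2 : ∀ x : Conf N, (∑ i, ‖x i - centre x‖ ^ 2) = inertia x - N * ‖centre x‖ ^ 2 := by
    intro x
    have e1 : ∀ i, ‖x i - centre x‖ ^ 2 =
        ‖x i‖ ^ 2 - 2 * inner ℝ (x i) (centre x) + ‖centre x‖ ^ 2 := fun i =>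
      norm_sub_sq_real _ _
    have e2 : ∑ i, inner ℝ (x i) (centre x) = inner ℝ (∑ i, x i) (centre x) := by
      rw [sum_inner]
    have hN' : (N : ℂ) ≠ 0 := by
      have : N ≠ 0 := by omega
      exact_mod_cast this
    have e3 : (∑ i, x i) = (N : ℝ) • centre x := by
      unfold centre
      rw [Complex.real_smul]
      push_cast
      field_simp
    simp only [e1, Finset.sum_add_distrib, Finset.sum_sub_distrib, ← Finset.mul_sum, e2, e3,
      inner_smul_left, Finset.sum_const, Finset.card_univ, Fintype.card_fin, nsmul_eq_mul,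
      real_inner_self_eq_norm_sq, inertia]
    simp
    ring
  unfold rad
  rw [h2, h2, V.inert, V.cen]

theorem FI_XX_inv {N : ℕ} (hN : 3 ≤ N) (V : VFlow N) {ε E : ℝ} {z : Conf N} (hz : z ∈ XX N ε E)
    (t : ℝ) : V.φ t z ∈ XX N ε E := by
  obtain ⟨⟨h1, h2, h3⟩, h4, h5⟩ := hz
  have hinj := FI_inj_of_nrm h4
  have hr : 0 < rad z := by linarith
  refine ⟨⟨?_, ?_, ?_⟩, ?_⟩
  · rw [V.cen]; exact h1
  · rw [FI_rad_inv (by omega) V]; exact h2
  · rw [FI_rad_inv (by omega) V]; exact h3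
  · rw [GL_nrm (by omega) V hinj hr]
    refine ⟨GL_Gam_inv V h4 _, ?_⟩
    rw [GL_ham V h4.1]
    exact h5

theorem FI_mp {N : ℕ} (hN : 3 ≤ N) (V : VFlow N) (ε E t : ℝ) :
    MeasurePreserving (V.φ t) (volume.restrict (XX N ε E)) (volume.restrict (XX N ε E)) := by
  have h1 := (V.mp t).restrict_preimage (FI_meas_XX N ε E)
  have h2 : V.φ t ⁻¹' XX N ε E = XX N ε E := by
    ext z
    constructor
    · intro h
      have h3 := FI_XX_inv hN V h (-t)
      rw [← V.add, neg_add_cancel, V.zero] at h3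
      exact h3
    · intro h
      exact FI_XX_inv hN V h t
  rwa [h2] at h1

/-! ### the exceptional set for given parameters -/

/-- the property of a datum `y ∈ Γ_N` with defect at most `η` -/
def Fine (N : ℕ) (η : ℝ) (y : Conf N) : Prop :=
  ∀ w : ℝ → Conf N, Motion w → w 0 = y →
    (∀ Ψ : Conf N → ℝ, Continuous Ψ → ∃ l, LimAvg w Ψ l) ∧
    (∀ Ψ : Conf N → ℝ, LipschitzWith 1 Ψ → ∀ θ l l' : ℝ, LimAvg w Ψ l →
      LimAvg w (fun z => Ψ (turn θ z)) l' → |l' - l| ≤ η) ∧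
    (∀ Φ : ℂ → ℝ, LipschitzWith 1 Φ → ∀ l : ℝ, LimAvg w (one N Φ) l →
      |l - mstar N Φ| ≤ η)

theorem FI_bad {N : ℕ} (hN : 3 ≤ N) : ∃ C > 0, ∃ ρ₀ > 0, ∀ ρ δ ε E : ℝ, 0 < ρ → ρ ≤ ρ₀ →
    0 < δ → 0 < ε → ε ≤ 1 →
    sig N {y | y ∈ Hi N E ∧ ¬ Fine N (C * (ρ + ε + δ)) y} ≤
      ENNReal.ofReal (1 / δ) * sig N (Hi N E \ Clus N ρ) := by
  obtain ⟨V⟩ := Pool.Agent.Lib_helper25.PV.exists_vflow N (by omega)
  obtain ⟨CD, hCD, ρD, hρD, hD⟩ := D_window N hN
  obtain ⟨CA, hCA, hA⟩ := A_window N hN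
  refine ⟨2 * (CA * (CD + 1)) + 2 * Real.sqrt N, by positivity, ρD, hρD, ?_⟩
  intro ρ δ ε E hρ hρD' hδ hε hε1
  set C : ℝ := 2 * (CA * (CD + 1)) + 2 * Real.sqrt N with hC
  have hfin : volume (XX N ε E) < ⊤ :=
    (measure_mono fun z hz => hz.1).trans_lt (SH_finite N (by omega) ε)
  haveI : IsFiniteMeasure (volume.restrict (XX N ε E)) := ⟨by
    rw [Measure.restrict_apply_univ]; exact hfin⟩
  have hW : MeasurableSet {x : Conf N | nrm x ∉ Clus N ρ} :=
    (FI_meas_nrm N (FI_meas_Clus N ρ)).compl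
  obtain ⟨D, hD1, hD2⟩ := EB_windows (FI_mp hN V ε E (per N)) hW hδ
  obtain ⟨κ, hκ0, hκ1, hκ⟩ := SH_shell N (by omega) ε hε
  -- existence of the averages almost everywhere
  have hae : ∀ᵐ z : Conf N, ∀ Ψ : Conf N → ℝ, Continuous Ψ → ∃ l : ℝ,
      Tendsto (fun T : ℝ => T⁻¹ * ∫ t in (0 : ℝ)..T, Ψ (V.φ t z)) atTop (𝓝 l) := by
    filter_upwards [V.frames0 0] with z hz Ψ hΨ
    obtain ⟨l, hl⟩ := (hz Ψ hΨ).1 0
    refine ⟨l, hl.congr fun T => ?_⟩
    congr 1
    refine intervalIntegral.integral_congr fun t _ => ?_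
    have h0 : Pool.Agent.Lib_helper25.PV.tw (0 * t + 0) (V.φ t z) = V.φ t z := by
      funext i
      simp [Pool.Agent.Lib_helper25.PV.tw]
    simp only [h0]
  set P : Set (Conf N) := {z | ∀ Ψ : Conf N → ℝ, Continuous Ψ → ∃ l : ℝ,
      Tendsto (fun T : ℝ => T⁻¹ * ∫ t in (0 : ℝ)..T, Ψ (V.φ t z)) atTop (𝓝 l)} with hPdef
  have hPc : volume Pᶜ = 0 := hae
  -- good data
  have hgood : ∀ z ∈ XX N ε E, z ∈ P → z ∉ D → Fine N (C * (ρ + ε + δ)) (nrm z) := by
    intro z hz hP hzD w hw hw0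
    obtain ⟨⟨h1, h2, h3⟩, h4, h5⟩ := hz
    have hinj := FI_inj_of_nrm h4
    have hr : 0 < rad z := by linarith
    have hwt : w = fun t => V.φ t (nrm z) := by
      funext t
      rw [V.uniq w hw t, hw0]
    rw [hwt]
    have hq := FI_quant hN V hCA hCD hD hA hρ hρD' hε hε1 hinj h2 h3 (hD2 z hzD)
    have hle : 2 * (CA * (CD * ρ + ε)) + 2 * Real.sqrt N * δ ≤ C * (ρ + ε + δ) := by
      rw [hC]
      have e1 : 0 ≤ CA * ρ := by positivity
      have e2 : 0 ≤ CA * CD * ε := by positivity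
      have e3 : 0 ≤ CA * CD * δ := by positivity
      have e4 : 0 ≤ CA * δ := by positivity
      have e5 : 0 ≤ Real.sqrt N * ρ := by positivity
      have e6 : 0 ≤ Real.sqrt N * ε := by positivity
      nlinarith
    refine ⟨fun Ψ hΨ => FI_exists hN V hinj hr hP hΨ, fun Ψ hΨ θ l l' hl hl' =>
      (hq.1 Ψ hΨ θ l l' hl hl').trans hle, fun Φ hΦ l hl => (hq.2 Φ hΦ l hl).trans hle⟩
  have hsub : {z | z ∈ shell N ε ∧ nrm z ∈ {y | y ∈ Hi N E ∧ ¬ Fine N (C * (ρ + ε + δ)) y}} ⊆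
      (D ∩ XX N ε E) ∪ Pᶜ := by
    rintro z ⟨h1, h2, h3⟩
    by_cases hP : z ∈ P
    · left
      refine ⟨?_, h1, h2⟩
      by_contra hzD
      exact h3 (hgood z ⟨h1, h2⟩ hP hzD)
    · right
      exact hP
  have hμ1 : volume {z | z ∈ shell N ε ∧
      nrm z ∈ {y | y ∈ Hi N E ∧ ¬ Fine N (C * (ρ + ε + δ)) y}} ≤
      ENNReal.ofReal (1 / δ) * volume {z | z ∈ shell N ε ∧ nrm z ∈ Hi N E \ Clus N ρ} := by
    calc volume {z | z ∈ shell N ε ∧
        nrm z ∈ {y | y ∈ Hi N E ∧ ¬ Fine N (C * (ρ + ε + δ)) y}}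
        ≤ volume ((D ∩ XX N ε E) ∪ Pᶜ) := measure_mono hsub
      _ ≤ volume (D ∩ XX N ε E) + volume Pᶜ := measure_union_le _ _
      _ = (volume.restrict (XX N ε E)) D := by
          rw [hPc, add_zero, Measure.restrict_apply' (FI_meas_XX N ε E)]
      _ ≤ ENNReal.ofReal (1 / δ) * (volume.restrict (XX N ε E)) {x | nrm x ∉ Clus N ρ} := hD1
      _ = ENNReal.ofReal (1 / δ) * volume {z | z ∈ shell N ε ∧ nrm z ∈ Hi N E \ Clus N ρ} := by
          rw [Measure.restrict_apply hW]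
          congr 2
          ext z
          simp only [mem_inter_iff, mem_ofPred_eq, XX]
          constructor
          · rintro ⟨a1, a2, a3⟩
            exact ⟨a2, a3, a1⟩
          · rintro ⟨a1, a2, a3⟩
            exact ⟨a3, a1, a2⟩
  rw [hκ, hκ] at hμ1
  have h3 : κ * sig N {y | y ∈ Hi N E ∧ ¬ Fine N (C * (ρ + ε + δ)) y} ≤
      κ * (ENNReal.ofReal (1 / δ) * sig N (Hi N E \ Clus N ρ)) := by
    calc _ ≤ ENNReal.ofReal (1 / δ) * (κ * sig N (Hi N E \ Clus N ρ)) := hμ1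
      _ = _ := by ring
  exact (ENNReal.mul_le_mul_iff_right hκ0 hκ1).1 h3

end

end Pool.Agent.Lib_helper12.HE
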